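import Pool.Agent.Helper28_TP.StS

/-!
# One attempt

The ten steps of the corridor followed by the six steps at the new block.
-/

set_option autoImplicit false

namespace Pool.Agent.TP.H93

open Pool.Agent.TP

/-- ATT: one attempt. -/
theorem att (hKeep : KeepStmt) (hSucc : SuccStmt) (hCorr : CorrStmt) (hPlz : PlzStmt) :
    AttStmt := by
  intro k N ρ p ε m n δ hN hmn hδ hδ1 hstep Reg C F X Λ s z a g hV hv hz hg hreg hC hF
    Φ βS βF h0 hSF hS hFl
  have hF' : ∀ s', Post N p ε m n z a g 16 s s' → PSt Λ KK s' Φ ≤ βF := fun s' hs' =>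
    hFl s' (hKeep k N ρ p ε m n hN hmn Reg C F X s s' z a g hv (Or.inl hz) hg hreg hC hF hs')
  have hb0 : 0 ≤ (1 - 6 * δ) * βS + 6 * δ * βF := by
    have h1 : 0 ≤ (1 - 6 * δ) * βS := mul_nonneg (by linarith) h0
    have h2 : 0 ≤ 6 * δ * βF := mul_nonneg (by linarith) (h0.trans hSF)
    linarith
  have hb1 : (1 - 6 * δ) * βS + 6 * δ * βF ≤ βF := by
    nlinarith [mul_nonneg (show (0 : ℝ) ≤ 1 - 6 * δ by linarith) (sub_nonneg.2 hSF)]
  have key := hCorr k N ρ p ε m n δ hN hmn hδ hδ1 hstep Reg C F X Λ s z a g hV hv hz hg hreg hC hF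
    Φ ((1 - 6 * δ) * βS + 6 * δ * βF) βF hb0 hb1
    (fun s' b hA => hPlz k N ρ p ε m n δ hN hmn hδ hδ1 hstep Reg C F X Λ s s' b z a g hV hv
      (Or.inl hz) hg hreg hC hF hA Φ βS βF h0 hSF
      (fun s'' hP hH hT => hS s'' (hSucc k N ρ p ε m n hN hmn Reg C F X s s'' z a g hv
        (Or.inl hz) hg hreg hC hF hP hH hT)) hF') hF'
  refine key.trans ?_
  nlinarith [mul_nonneg (mul_nonneg hδ hδ) (sub_nonneg.2 hSF)]

end Pool.Agent.TP.H93
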