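import Pool.Agent.Helper28_TP.StS

/-!
# The potential argument

The sum over the sets `T` of the family that avoid the reached blocks, with the weight
`w T * δ ^ |T \ F|`, bounds the value of the exploration.
-/

set_option autoImplicit false

namespace Pool.Agent.TP.H93

open Pool.Agent.TP
open Pool.Agent.Helper33_FPP (Z2 dst Rect)

/-- The potential. -/
noncomputable def pot0 (𝒯 : Finset (Finset (ℤ × ℤ))) (w : Finset (ℤ × ℤ) → ℝ) (δ : ℝ)
    (C F : Finset (ℤ × ℤ)) : ℝ :=
  ∑ T ∈ 𝒯.filter (fun T => Disjoint T C), w T * δ ^ (T \ F).card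

theorem pot0_eq (𝒯 : Finset (Finset (ℤ × ℤ))) (w : Finset (ℤ × ℤ) → ℝ) (δ : ℝ)
    (C F : Finset (ℤ × ℤ)) :
    pot0 𝒯 w δ C F = ∑ T ∈ 𝒯, if Disjoint T C then w T * δ ^ (T \ F).card else 0 := by
  rw [pot0, Finset.sum_filter]

theorem pot0_nonneg {𝒯 : Finset (Finset (ℤ × ℤ))} {w : Finset (ℤ × ℤ) → ℝ} {δ : ℝ}
    (hδ : 0 ≤ δ) (hw : ∀ T, 0 ≤ w T) (C F : Finset (ℤ × ℤ)) : 0 ≤ pot0 𝒯 w δ C F :=
  Finset.sum_nonneg fun T _ => mul_nonneg (hw T) (pow_nonneg hδ _)

/-- Cardinality of the set difference after a failure. -/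
theorem card_sdiff_insert {T F : Finset (ℤ × ℤ)} {z : ℤ × ℤ} (hz : z ∈ T) (hF : z ∉ F) :
    (T \ F).card = (T \ insert z F).card + 1 := by
  have h : T \ F = insert z (T \ insert z F) := by
    ext x
    simp only [Finset.mem_sdiff, Finset.mem_insert]
    constructor
    · rintro ⟨h1, h2⟩
      by_cases hx : x = z
      · exact Or.inl hx
      · exact Or.inr ⟨h1, fun h => h.elim hx h2⟩
    · rintro (h | ⟨h1, h2⟩)
      · subst h
        exact ⟨hz, hF⟩
      · exact ⟨h1, fun h => h2 (Or.inr h)⟩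
  rw [h, Finset.card_insert_of_notMem]
  simp

/-- Comparison of the two outcomes. -/
theorem pot0_le {𝒯 : Finset (Finset (ℤ × ℤ))} {w : Finset (ℤ × ℤ) → ℝ} {δ : ℝ}
    (hδ : 0 ≤ δ) (hδ1 : δ ≤ 1) (hw : ∀ T, 0 ≤ w T) {C F : Finset (ℤ × ℤ)} {z : ℤ × ℤ}
    : pot0 𝒯 w δ (insert z C) F ≤ pot0 𝒯 w δ C (insert z F) := by
  rw [pot0_eq, pot0_eq]
  refine Finset.sum_le_sum fun T _ => ?_
  by_cases h : Disjoint T (insert z C)
  · have h1 : Disjoint T C := Finset.disjoint_of_subset_right (Finset.subset_insert z C) h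
    rw [if_pos h, if_pos h1]
    refine mul_le_mul_of_nonneg_left ?_ (hw T)
    refine pow_le_pow_of_le_one hδ hδ1 (Finset.card_le_card ?_)
    exact Finset.sdiff_subset_sdiff (Finset.Subset.refl T) (Finset.subset_insert z F)
  · rw [if_neg h]
    split_ifs
    · exact mul_nonneg (hw T) (pow_nonneg hδ _)
    · exact le_refl 0

/-- The potential is a supersolution. -/
theorem pot0_step {𝒯 : Finset (Finset (ℤ × ℤ))} {w : Finset (ℤ × ℤ) → ℝ} {δ : ℝ}
    {C F : Finset (ℤ × ℤ)} {z : ℤ × ℤ}
    (hC : z ∉ C) (hF : z ∉ F) :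
    (1 - δ) * pot0 𝒯 w δ (insert z C) F + δ * pot0 𝒯 w δ C (insert z F) =
      pot0 𝒯 w δ C F := by
  rw [pot0_eq, pot0_eq, pot0_eq, Finset.mul_sum, Finset.mul_sum, ← Finset.sum_add_distrib]
  refine Finset.sum_congr rfl fun T _ => ?_
  by_cases hz : z ∈ T
  · have h : ¬ Disjoint T (insert z C) := fun h =>
      (Finset.disjoint_left.1 h) hz (Finset.mem_insert_self z C)
    rw [if_neg h]
    by_cases h1 : Disjoint T C
    · rw [if_pos h1, if_pos h1, card_sdiff_insert hz hF, pow_succ]
      ring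
    · rw [if_neg h1, if_neg h1]
      ring
  · have h2 : Disjoint T (insert z C) ↔ Disjoint T C := by
      rw [Finset.disjoint_insert_right]
      exact ⟨fun h => h.2, fun h => ⟨hz, h⟩⟩
    have h3 : T \ insert z F = T \ F := by
      ext x
      simp only [Finset.mem_sdiff, Finset.mem_insert]
      constructor
      · rintro ⟨h1, h2⟩
        exact ⟨h1, fun h => h2 (Or.inr h)⟩
      · rintro ⟨h1, h2⟩
        refine ⟨h1, fun h => h.elim (fun h => ?_) h2⟩
        subst h
        exact hz h1
    rw [h3]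
    by_cases h1 : Disjoint T C
    · rw [if_pos h1, if_pos (h2.2 h1)]
      ring
    · rw [if_neg h1, if_neg (fun h => h1 (h2.1 h))]
      ring

/-- POT: the potential argument. -/
theorem pot : PotStmt := by
  intro Reg δ hδ hδ1 𝒯 w hw g I hI hstep hterm
  have main : ∀ r : ℕ, ∀ C F, I C F → (Reg \ (C ∪ F)).card = r → g C F ≤ pot0 𝒯 w δ C F := by
    intro r
    induction r using Nat.strong_induction_on with
    | _ r ih =>
      intro C F hCF hr
      by_cases ht : ∀ z ∈ C, ∀ z' ∈ Reg, Z2.Adj z z' → z' ∈ C ∨ z' ∈ F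
      · exact hterm C F hCF ht
      · push Not at ht
        obtain ⟨z, hz, z', hz', hadj, hC, hF⟩ := ht
        obtain ⟨h1, h2, h3⟩ := hstep C F hCF z hz z' hz' hadj hC hF
        have hlt1 : (Reg \ (insert z' C ∪ F)).card < r := by
          rw [← hr]
          refine Finset.card_lt_card ?_
          refine Finset.ssubset_iff_subset_ne.2 ⟨?_, ?_⟩
          · intro x hx
            simp only [Finset.mem_sdiff, Finset.mem_union, Finset.mem_insert] at hx ⊢
            exact ⟨hx.1, fun h => hx.2 (h.elim (fun h => Or.inl (Or.inr h)) Or.inr)⟩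
          · intro h
            have : z' ∈ Reg \ (C ∪ F) := by
              simp only [Finset.mem_sdiff, Finset.mem_union]
              exact ⟨hz', fun h => h.elim hC hF⟩
            rw [← h] at this
            simp at this
        have hlt2 : (Reg \ (C ∪ insert z' F)).card < r := by
          rw [← hr]
          refine Finset.card_lt_card ?_
          refine Finset.ssubset_iff_subset_ne.2 ⟨?_, ?_⟩
          · intro x hx
            simp only [Finset.mem_sdiff, Finset.mem_union, Finset.mem_insert] at hx ⊢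
            exact ⟨hx.1, fun h => hx.2 (h.elim Or.inl (fun h => Or.inr (Or.inr h)))⟩
          · intro h
            have : z' ∈ Reg \ (C ∪ F) := by
              simp only [Finset.mem_sdiff, Finset.mem_union]
              exact ⟨hz', fun h => h.elim hC hF⟩
            rw [← h] at this
            simp at this
        have e1 := ih _ hlt1 _ _ h1 rfl
        have e2 := ih _ hlt2 _ _ h2 rfl
        have e3 := h3 (pot0 𝒯 w δ (insert z' C) F) (pot0 𝒯 w δ C (insert z' F))
          (pot0_nonneg hδ hw _ _) (pot0_le hδ hδ1 hw) e1 e2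
        rwa [pot0_step hC hF] at e3
  intro C F hCF
  exact main _ C F hCF rfl

end Pool.Agent.TP.H93
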